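import Pool.Agent.Q176.CC.Rtf

set_option autoImplicit false

open Set Filter Topology MeasureTheory
open scoped ENNReal ContDiff

namespace Pool.Agent.Q176.CC

open Pool.Agent.Q62.CC

/-- the weight of the axial flows -/
noncomputable def ma (x : ℝ) : ℝ := Real.exp (-2 * x)

lemma wt_axi {a b : ℝ} (ha : 0 < a) (hab : a < b) :
    Wt ma (-Real.log (2 * b)) (-Real.log (a / 2)) (-Real.log b) (-Real.log a) (4 * b ^ 2) 2 := by
  have hb : 0 < b := ha.trans hab
  have hd : ∀ x : ℝ, HasDerivAt ma (-2 * ma x) x := by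
    intro x
    have h1 : HasDerivAt (fun y : ℝ => -2 * y) (-2) x := by
      simpa using (hasDerivAt_id x).const_mul (-2 : ℝ)
    have h2 := h1.exp
    rw [mul_comm] at h2
    exact h2
  refine ⟨?_, ?_, ?_, by norm_num, ?_, ?_, ?_, ?_⟩
  · have : Real.log b < Real.log (2 * b) := Real.log_lt_log hb (by linarith)
    linarith
  · have : Real.log a < Real.log b := Real.log_lt_log ha hab
    linarith
  · have : Real.log (a / 2) < Real.log a := Real.log_lt_log (by linarith) (by linarith)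
    linarith
  · have h : ContDiff ℝ ∞ (fun x : ℝ => Real.exp (-2 * x)) :=
      Real.contDiff_exp.comp (contDiff_const.mul contDiff_id)
    exact h.contDiffOn
  · intro x _
    exact Real.exp_pos _
  · intro x hx
    have h1 : -2 * x ≤ Real.log ((2 * b) ^ 2) := by
      rw [Real.log_pow]
      push_cast
      linarith [hx.1]
    have h2 := Real.exp_le_exp.2 h1
    rw [Real.exp_log (by positivity)] at h2
    show Real.exp (-2 * x) ≤ 4 * b ^ 2
    linarith [h2, show (2 * b) ^ 2 = 4 * b ^ 2 by ring]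
  · intro x _
    rw [(hd x).deriv]
    linarith

/-- Job AXF. -/
theorem t_AXF (hp1 : S_SCA) (hp2 : S_CHA) : S_AXF := by
  intro a b T ha hab hT f hf
  have hb : 0 < b := ha.trans hab
  have ha2 : 0 < a ^ 2 := by positivity
  have hb2 : 0 < b ^ 2 := by positivity
  obtain ⟨hc1, C, hCt, hc2⟩ := hp2 a b ha hab
  obtain ⟨V, Vt, W, q, hF⟩ := hp1 ma _ _ _ _ _ _ T (wt_axi ha hab) hT _ (hc1 f hf)
  have hin : ∀ s ∈ Ioo (a ^ 2 / 4) (4 * b ^ 2),
      -(Real.log s / 2) ∈ Ioo (-Real.log (2 * b)) (-Real.log (a / 2)) ∧ 0 < s := by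
    intro s hs
    have hs0 : 0 < s := lt_trans (by positivity) hs.1
    have h1 : Real.log s < Real.log ((2 * b) ^ 2) :=
      Real.log_lt_log hs0 (by linarith [hs.2, show (2 * b) ^ 2 = 4 * b ^ 2 by ring])
    have h2 : Real.log ((a / 2) ^ 2) < Real.log s :=
      Real.log_lt_log (by positivity) (by linarith [hs.1, show (a / 2) ^ 2 = a ^ 2 / 4 by ring])
    rw [Real.log_pow] at h1 h2
    push_cast at h1 h2
    exact ⟨⟨by linarith, by linarith⟩, hs0⟩
  have hy : ∀ s : ℝ, 0 < s → HasDerivAt (fun r : ℝ => -(Real.log r / 2)) (-(1 / (2 * s))) s := by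
    intro s hs
    have h1 := ((Real.hasDerivAt_log hs.ne').div_const 2).neg
    have e : -(s⁻¹ / 2) = -(1 / (2 * s)) := by
      field_simp
    rw [← e]
    exact h1
  have hma : ∀ s : ℝ, 0 < s → ma (-(Real.log s / 2)) = s := by
    intro s hs
    unfold ma
    have e : -2 * -(Real.log s / 2) = Real.log s := by ring
    rw [e, Real.exp_log hs]
  refine ⟨fun t s => V t (-(Real.log s / 2)), fun t s => Vt t (-(Real.log s / 2)),
    fun t s => -(W t (-(Real.log s / 2)) / (2 * s)),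
    fun t s => (Vt t (-(Real.log s / 2)) - q t) / (4 * s) + W t (-(Real.log s / 2)) / (2 * s ^ 2),
    q, ?_, ?_, ?_, ?_, ?_⟩
  · refine ⟨?_, hF.qsmooth, ?_, ?_, ?_, ?_⟩
    · have h2 : ContDiffOn ℝ ∞ (fun z : ℝ × ℝ => ((z.1, -(Real.log z.2 / 2)) : ℝ × ℝ))
          (Ioi 0 ×ˢ Ioo (a ^ 2 / 4) (4 * b ^ 2)) := by
        refine contDiff_fst.contDiffOn.prodMk ?_
        refine ContDiffOn.neg (ContDiffOn.div_const (ContDiffOn.log contDiff_snd.contDiffOn ?_) 2)
        rintro ⟨t, s⟩ ⟨ht, hs⟩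
        exact (hin s hs).2.ne'
      refine hF.smooth.comp h2 ?_
      rintro ⟨t, s⟩ ⟨ht, hs⟩
      exact ⟨ht, (hin s hs).1⟩
    · intro t s ht hs
      exact hF.dt t _ ht (hin s hs).1
    · intro t s ht hs
      obtain ⟨hs1, hs0⟩ := hin s hs
      have h2 : HasDerivAt (fun y : ℝ => V t (-(Real.log y / 2)))
          (W t (-(Real.log s / 2)) * -(1 / (2 * s))) s :=
        (hF.dx t _ ht hs1).comp s (hy s hs0)
      have e : W t (-(Real.log s / 2)) * -(1 / (2 * s)) = -(W t (-(Real.log s / 2)) / (2 * s)) := by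
        field_simp
      rw [← e]
      exact h2
    · intro t s ht hs
      obtain ⟨hs1, hs0⟩ := hin s hs
      have h3 : HasDerivAt (fun y : ℝ => W t (-(Real.log y / 2)))
          (ma (-(Real.log s / 2)) * (Vt t (-(Real.log s / 2)) - q t) * -(1 / (2 * s))) s :=
        (hF.dxx t _ ht hs1).comp s (hy s hs0)
      rw [hma s hs0] at h3
      have h4 : HasDerivAt (fun y : ℝ => 2 * y) 2 s := by
        simpa using (hasDerivAt_id s).const_mul (2 : ℝ)
      have h6 : HasDerivAt (fun y : ℝ => -(W t (-(Real.log y / 2)) / (2 * y)))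
          (-((s * (Vt t (-(Real.log s / 2)) - q t) * -(1 / (2 * s)) * (2 * s) -
            W t (-(Real.log s / 2)) * 2) / (2 * s) ^ 2)) s :=
        (h3.div h4 (by positivity)).neg
      have e : -((s * (Vt t (-(Real.log s / 2)) - q t) * -(1 / (2 * s)) * (2 * s) -
            W t (-(Real.log s / 2)) * 2) / (2 * s) ^ 2) =
          (Vt t (-(Real.log s / 2)) - q t) / (4 * s) + W t (-(Real.log s / 2)) / (2 * s ^ 2) := by
        field_simp
        ring
      rw [← e]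
      exact h6
    · intro t s ht hs
      obtain ⟨hs1, hs0⟩ := hin s hs
      show Vt t (-(Real.log s / 2)) = 4 * s * ((Vt t (-(Real.log s / 2)) - q t) / (4 * s) +
        W t (-(Real.log s / 2)) / (2 * s ^ 2)) + 4 * -(W t (-(Real.log s / 2)) / (2 * s)) + q t
      field_simp
      ring
  · intro t ht
    obtain ⟨h1, h2⟩ := hF.wall t ht
    have e : ∀ r : ℝ, -(Real.log (r ^ 2) / 2) = -Real.log r := by
      intro r
      rw [Real.log_pow]
      push_cast
      ring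
    constructor
    · show V t (-(Real.log (a ^ 2) / 2)) = 0
      rw [e, h2]
    · show V t (-(Real.log (b ^ 2) / 2)) = 0
      rw [e, h1]
  · intro t ht
    obtain ⟨h1, h2⟩ := hF.zero t ht
    exact ⟨h1, fun s => (h2 _).1⟩
  · -- the limit
    have h1 := ENNReal.Tendsto.const_mul hF.lim (Or.inr hCt)
    rw [mul_zero] at h1
    refine tendsto_of_tendsto_of_tendsto_of_le_of_le tendsto_const_nhds h1 (fun _ => zero_le) ?_
    intro t
    show ∫⁻ s in Icc (a ^ 2) (b ^ 2), ‖V t (-(Real.log s / 2)) - f (√s)‖ₑ ^ 2 ≤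
      C * ∫⁻ x in Icc (-Real.log b) (-Real.log a), ‖V t x - f (Real.exp (-x))‖ₑ ^ 2
    refine le_trans (le_of_eq ?_) (hc2 (fun x => ‖V t x - f (Real.exp (-x))‖ₑ ^ 2))
    refine setLIntegral_congr_fun measurableSet_Icc ?_
    intro s hs
    have hs0 : 0 < s := lt_of_lt_of_le ha2 hs.1
    have e : Real.exp (- -(Real.log s / 2)) = √s := by
      rw [neg_neg, Real.sqrt_eq_rpow, Real.rpow_def_of_pos hs0]
      congr 1
      ring
    show ‖V t (-(Real.log s / 2)) - f (√s)‖ₑ ^ 2 =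
      ‖V t (-(Real.log s / 2)) - f (Real.exp (- -(Real.log s / 2)))‖ₑ ^ 2
    rw [e]
  · -- the energy
    obtain ⟨D, hDd⟩ : ∃ D : ℝ, D = 1 + 1 / (a ^ 2) ^ 2 := ⟨_, rfl⟩
    have hD0 : 0 ≤ D := by rw [hDd]; positivity
    have hpt : ∀ t s : ℝ, s ∈ Icc (a ^ 2) (b ^ 2) →
        ‖V t (-(Real.log s / 2))‖ₑ ^ 2 + ‖-(W t (-(Real.log s / 2)) / (2 * s))‖ₑ ^ 2 ≤
          ENNReal.ofReal D * (‖V t (-(Real.log s / 2))‖ₑ ^ 2 + ‖W t (-(Real.log s / 2))‖ₑ ^ 2) := by
      intro t s hs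
      have hs0 : 0 < s := lt_of_lt_of_le ha2 hs.1
      refine esq_add_le hD0 ?_
      set v := V t (-(Real.log s / 2))
      set w := W t (-(Real.log s / 2))
      have i1 : 1 / s ^ 2 ≤ 1 / (a ^ 2) ^ 2 :=
        one_div_le_one_div_of_le (by positivity) (pow_le_pow_left₀ ha2.le hs.1 2)
      have j1 : (-(w / (2 * s))) ^ 2 = w ^ 2 * (1 / s ^ 2) / 4 := by
        field_simp
        ring
      have l3 : w ^ 2 * (1 / s ^ 2) ≤ w ^ 2 * (1 / (a ^ 2) ^ 2) :=
        mul_le_mul_of_nonneg_left i1 (sq_nonneg _)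
      have l4 : 0 ≤ v ^ 2 * (1 / (a ^ 2) ^ 2) := by positivity
      have l5 : 0 ≤ w ^ 2 * (1 / s ^ 2) := by positivity
      have e : D * (v ^ 2 + w ^ 2) = v ^ 2 + w ^ 2 + v ^ 2 * (1 / (a ^ 2) ^ 2) + w ^ 2 * (1 / (a ^ 2) ^ 2) := by
        rw [hDd]
        ring
      rw [j1, e]
      linarith [sq_nonneg w]
    have hC : ENNReal.ofReal D * C ≠ ⊤ := ENNReal.mul_ne_top ENNReal.ofReal_ne_top hCt
    refine lt_of_le_of_lt ?_ (ENNReal.mul_lt_top (lt_top_iff_ne_top.2 hC) hF.en)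
    rw [← lintegral_const_mul' _ _ hC]
    refine lintegral_mono ?_
    intro t
    show ∫⁻ s in Icc (a ^ 2) (b ^ 2), (‖V t (-(Real.log s / 2))‖ₑ ^ 2 +
      ‖-(W t (-(Real.log s / 2)) / (2 * s))‖ₑ ^ 2) ≤
      ENNReal.ofReal D * C * ∫⁻ x in Icc (-Real.log b) (-Real.log a), (‖V t x‖ₑ ^ 2 + ‖W t x‖ₑ ^ 2)
    rw [mul_assoc]
    refine le_trans ?_ (mul_le_mul_right (hc2 (fun x => ‖V t x‖ₑ ^ 2 + ‖W t x‖ₑ ^ 2)) _)
    rw [← lintegral_const_mul' _ _ ENNReal.ofReal_ne_top]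
    exact setLIntegral_mono' measurableSet_Icc fun s hs => hpt t s hs

end Pool.Agent.Q176.CC
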