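import Pool.Agent.Q62.CC.Stm

set_option autoImplicit false

open Set Filter Topology MeasureTheory
open scoped ENNReal ContDiff

namespace Pool.Agent.Q176.CC

open Pool.Agent.Q62.CC

lemma esq (x : ℝ) : ‖x‖ₑ ^ 2 = ENNReal.ofReal (x ^ 2) := by
  rw [Real.enorm_eq_ofReal_abs, ← ENNReal.ofReal_pow (abs_nonneg x), sq_abs]

lemma esq_le {x v C : ℝ} (hC : 0 ≤ C) (h : x ^ 2 ≤ C * v ^ 2) :
    ‖x‖ₑ ^ 2 ≤ ENNReal.ofReal C * ‖v‖ₑ ^ 2 := by
  rw [esq, esq, ← ENNReal.ofReal_mul hC]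
  exact ENNReal.ofReal_le_ofReal h

lemma esq_add_le {x y v w C : ℝ} (hC : 0 ≤ C) (h : x ^ 2 + y ^ 2 ≤ C * (v ^ 2 + w ^ 2)) :
    ‖x‖ₑ ^ 2 + ‖y‖ₑ ^ 2 ≤ ENNReal.ofReal C * (‖v‖ₑ ^ 2 + ‖w‖ₑ ^ 2) := by
  rw [esq, esq, esq, esq, ← ENNReal.ofReal_add (sq_nonneg _) (sq_nonneg _),
    ← ENNReal.ofReal_add (sq_nonneg _) (sq_nonneg _), ← ENNReal.ofReal_mul hC]
  exact ENNReal.ofReal_le_ofReal h

/-- the weight of the circular flows -/
noncomputable def mr (s : ℝ) : ℝ := 1 / (2 * s)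

lemma wt_rot {a b : ℝ} (ha : 0 < a) (hab : a < b) :
    Wt mr (a ^ 2 / 8) (2 * b ^ 2) (a ^ 2 / 2) (b ^ 2 / 2) (4 / a ^ 2) (2 / b ^ 2) := by
  have hb : 0 < b := ha.trans hab
  have ha2 : 0 < a ^ 2 := by positivity
  have hb2 : 0 < b ^ 2 := by positivity
  have hab2 : a ^ 2 < b ^ 2 := by nlinarith
  refine ⟨by linarith, by linarith, by linarith, by positivity, ?_, ?_, ?_, ?_⟩
  · have h : ContDiffOn ℝ ∞ (fun s : ℝ => 1 / (2 * s)) (Ioo (a ^ 2 / 8) (2 * b ^ 2)) := by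
      refine ContDiffOn.div contDiffOn_const (contDiffOn_const.mul contDiffOn_id) ?_
      intro x hx
      have : 0 < x := lt_trans (by positivity) hx.1
      positivity
    exact h
  · intro x hx
    have : 0 < x := lt_trans (by positivity) hx.1
    unfold mr
    positivity
  · intro x hx
    have h0 : 0 < x := lt_trans (by positivity) hx.1
    unfold mr
    rw [div_le_div_iff₀ (by positivity) (by positivity)]
    nlinarith [hx.1]
  · intro x hx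
    have h0 : 0 < x := lt_of_lt_of_le (by positivity) hx.1
    have hd : HasDerivAt mr (-(1 / (2 * x ^ 2))) x := by
      have h1 : HasDerivAt (fun s : ℝ => 2 * s) 2 x := by
        simpa using (hasDerivAt_id x).const_mul (2 : ℝ)
      have h2 : HasDerivAt mr ((0 * (2 * x) - 1 * 2) / (2 * x) ^ 2) x :=
        (hasDerivAt_const x (1 : ℝ)).div h1 (by positivity)
      have e : (0 * (2 * x) - 1 * 2) / (2 * x) ^ 2 = -(1 / (2 * x ^ 2)) := by
        field_simp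
        ring
      rw [← e]
      exact h2
    rw [hd.deriv]
    unfold mr
    have h3 : 2 / b ^ 2 * (1 / (2 * x)) ≤ 1 / (2 * x ^ 2) := by
      rw [div_mul_div_comm, div_le_div_iff₀ (by positivity) (by positivity)]
      have hx2 := hx.2
      have h4 : 0 ≤ x * (b ^ 2 - 2 * x) := mul_nonneg h0.le (by linarith)
      nlinarith
    linarith

/-- Job RTF. -/
theorem t_RTF (hp1 : S_SCA) (hp2 : S_CHR) : S_RTF := by
  intro a b T ha hab hT f hf
  have hb : 0 < b := ha.trans hab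
  have ha2 : 0 < a ^ 2 := by positivity
  have hb2 : 0 < b ^ 2 := by positivity
  obtain ⟨hc1, hc2⟩ := hp2 a b ha hab
  obtain ⟨V, Vt, W, q, hF⟩ := hp1 mr _ _ _ _ _ _ T (wt_rot ha hab) hT _ (hc1 f hf)
  have hin : ∀ s ∈ Ioo (a ^ 2 / 4) (4 * b ^ 2), s / 2 ∈ Ioo (a ^ 2 / 8) (2 * b ^ 2) ∧ 0 < s := by
    intro s hs
    exact ⟨⟨by linarith [hs.1], by linarith [hs.2]⟩, lt_trans (by positivity) hs.1⟩
  refine ⟨fun t s => V t (s / 2) / s, fun t s => Vt t (s / 2) / s,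
    fun t s => W t (s / 2) / (2 * s) - V t (s / 2) / s ^ 2,
    fun t s => (Vt t (s / 2) - q t) / (4 * s ^ 2) - W t (s / 2) / s ^ 2 + 2 * V t (s / 2) / s ^ 3,
    q, ?_, ?_, ?_, ?_, ?_⟩
  · refine ⟨?_, hF.qsmooth, ?_, ?_, ?_, ?_⟩
    · have h1 : ContDiffOn ℝ ∞ (fun z : ℝ × ℝ => V z.1 (z.2 / 2)) (Ioi 0 ×ˢ Ioo (a ^ 2 / 4) (4 * b ^ 2)) := by
        have h2 : ContDiff ℝ ∞ (fun z : ℝ × ℝ => ((z.1, z.2 / 2) : ℝ × ℝ)) :=
          contDiff_fst.prodMk (contDiff_snd.div_const 2)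
        refine hF.smooth.comp h2.contDiffOn ?_
        rintro ⟨t, s⟩ ⟨ht, hs⟩
        exact ⟨ht, (hin s hs).1⟩
      refine h1.div contDiff_snd.contDiffOn ?_
      rintro ⟨t, s⟩ ⟨ht, hs⟩
      exact (hin s hs).2.ne'
    · intro t s ht hs
      exact (hF.dt t (s / 2) ht (hin s hs).1).div_const s
    · intro t s ht hs
      obtain ⟨hs1, hs0⟩ := hin s hs
      have h1 : HasDerivAt (fun y : ℝ => y / 2) (1 / 2) s := (hasDerivAt_id s).div_const 2
      have h2 : HasDerivAt (fun y : ℝ => V t (y / 2)) (W t (s / 2) * (1 / 2)) s :=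
        (hF.dx t (s / 2) ht hs1).comp s h1
      have h3 : HasDerivAt (fun y : ℝ => V t (y / 2) / y)
          ((W t (s / 2) * (1 / 2) * s - V t (s / 2) * 1) / s ^ 2) s := h2.div (hasDerivAt_id s) hs0.ne'
      have e : (W t (s / 2) * (1 / 2) * s - V t (s / 2) * 1) / s ^ 2 =
          W t (s / 2) / (2 * s) - V t (s / 2) / s ^ 2 := by
        field_simp
      rw [← e]
      exact h3
    · intro t s ht hs
      obtain ⟨hs1, hs0⟩ := hin s hs
      have h1 : HasDerivAt (fun y : ℝ => y / 2) (1 / 2) s := (hasDerivAt_id s).div_const 2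
      have h2 : HasDerivAt (fun y : ℝ => V t (y / 2)) (W t (s / 2) * (1 / 2)) s :=
        (hF.dx t (s / 2) ht hs1).comp s h1
      have h3 : HasDerivAt (fun y : ℝ => W t (y / 2)) (mr (s / 2) * (Vt t (s / 2) - q t) * (1 / 2)) s :=
        (hF.dxx t (s / 2) ht hs1).comp s h1
      have h4 : HasDerivAt (fun y : ℝ => 2 * y) 2 s := by
        simpa using (hasDerivAt_id s).const_mul (2 : ℝ)
      have h5 : HasDerivAt (fun y : ℝ => y ^ 2) (2 * s) s := by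
        simpa using hasDerivAt_pow 2 s
      have h6 : HasDerivAt (fun y : ℝ => W t (y / 2) / (2 * y) - V t (y / 2) / y ^ 2)
          ((mr (s / 2) * (Vt t (s / 2) - q t) * (1 / 2) * (2 * s) - W t (s / 2) * 2) / (2 * s) ^ 2 -
            (W t (s / 2) * (1 / 2) * s ^ 2 - V t (s / 2) * (2 * s)) / (s ^ 2) ^ 2) s :=
        (h3.div h4 (by positivity)).sub (h2.div h5 (by positivity))
      have e : (mr (s / 2) * (Vt t (s / 2) - q t) * (1 / 2) * (2 * s) - W t (s / 2) * 2) / (2 * s) ^ 2 -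
            (W t (s / 2) * (1 / 2) * s ^ 2 - V t (s / 2) * (2 * s)) / (s ^ 2) ^ 2 =
          (Vt t (s / 2) - q t) / (4 * s ^ 2) - W t (s / 2) / s ^ 2 + 2 * V t (s / 2) / s ^ 3 := by
        unfold mr
        field_simp
        ring
      rw [← e]
      exact h6
    · intro t s ht hs
      obtain ⟨hs1, hs0⟩ := hin s hs
      show Vt t (s / 2) / s = 4 * s * ((Vt t (s / 2) - q t) / (4 * s ^ 2) - W t (s / 2) / s ^ 2 +
        2 * V t (s / 2) / s ^ 3) + 8 * (W t (s / 2) / (2 * s) - V t (s / 2) / s ^ 2) + q t / s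
      field_simp
      ring
  · intro t ht
    obtain ⟨h1, h2⟩ := hF.wall t ht
    constructor
    · show V t (a ^ 2 / 2) / a ^ 2 = 0
      rw [h1, zero_div]
    · show V t (b ^ 2 / 2) / b ^ 2 = 0
      rw [h2, zero_div]
  · intro t ht
    obtain ⟨h1, h2⟩ := hF.zero t ht
    refine ⟨h1, fun s => ?_⟩
    show V t (s / 2) / s = 0
    rw [(h2 _).1, zero_div]
  · -- the limit
    have hlim := hF.lim
    have hC : ENNReal.ofReal (1 / a ^ 2) * 2 ≠ ⊤ := ENNReal.mul_ne_top ENNReal.ofReal_ne_top (by norm_num)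
    have h1 := ENNReal.Tendsto.const_mul hlim (Or.inr hC)
    rw [mul_zero] at h1
    refine tendsto_of_tendsto_of_tendsto_of_le_of_le tendsto_const_nhds h1 (fun _ => zero_le) ?_
    intro t
    show ∫⁻ s in Icc (a ^ 2) (b ^ 2), ‖√s * (V t (s / 2) / s) - f (√s)‖ₑ ^ 2 ≤
      ENNReal.ofReal (1 / a ^ 2) * 2 *
        ∫⁻ x in Icc (a ^ 2 / 2) (b ^ 2 / 2), ‖V t x - √(2 * x) * f (√(2 * x))‖ₑ ^ 2
    rw [mul_assoc, ← hc2 (fun x => ‖V t x - √(2 * x) * f (√(2 * x))‖ₑ ^ 2),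
      ← lintegral_const_mul' _ _ ENNReal.ofReal_ne_top]
    refine setLIntegral_mono' measurableSet_Icc ?_
    intro s hs
    have hs0 : 0 < s := lt_of_lt_of_le ha2 hs.1
    have e1 : 2 * (s / 2) = s := by ring
    rw [e1]
    refine esq_le (by positivity) ?_
    have hsq : √s ^ 2 = s := Real.sq_sqrt hs0.le
    have hsp : 0 < √s := Real.sqrt_pos.2 hs0
    have e2 : √s * (V t (s / 2) / s) - f (√s) = (V t (s / 2) - √s * f (√s)) / √s := by
      have e3 : V t (s / 2) / s = V t (s / 2) / √s ^ 2 := by rw [hsq]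
      rw [e3]
      field_simp
    rw [e2, div_pow, hsq, div_eq_mul_one_div, mul_comm]
    refine mul_le_mul_of_nonneg_right ?_ (sq_nonneg _)
    exact one_div_le_one_div_of_le ha2 hs.1
  · -- the energy
    obtain ⟨C, hCd⟩ : ∃ C : ℝ, C = 2 / (a ^ 2) ^ 2 + 2 / (a ^ 2) ^ 4 := ⟨_, rfl⟩
    have hC0 : 0 ≤ C := by rw [hCd]; positivity
    have hpt : ∀ t s : ℝ, s ∈ Icc (a ^ 2) (b ^ 2) →
        ‖V t (s / 2) / s‖ₑ ^ 2 + ‖W t (s / 2) / (2 * s) - V t (s / 2) / s ^ 2‖ₑ ^ 2 ≤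
          ENNReal.ofReal C * (‖V t (s / 2)‖ₑ ^ 2 + ‖W t (s / 2)‖ₑ ^ 2) := by
      intro t s hs
      have hs0 : 0 < s := lt_of_lt_of_le ha2 hs.1
      refine esq_add_le hC0 ?_
      have i1 : 1 / s ^ 2 ≤ 1 / (a ^ 2) ^ 2 :=
        one_div_le_one_div_of_le (by positivity) (pow_le_pow_left₀ ha2.le hs.1 2)
      have i2 : 1 / s ^ 4 ≤ 1 / (a ^ 2) ^ 4 :=
        one_div_le_one_div_of_le (by positivity) (pow_le_pow_left₀ ha2.le hs.1 4)
      have j1 : (V t (s / 2) / s) ^ 2 = V t (s / 2) ^ 2 * (1 / s ^ 2) := by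
        rw [div_pow, div_eq_mul_one_div]
      have j2 : (W t (s / 2) / (2 * s) - V t (s / 2) / s ^ 2) ^ 2 ≤
          W t (s / 2) ^ 2 * (1 / s ^ 2) + 2 * (V t (s / 2) ^ 2 * (1 / s ^ 4)) := by
        have k1 : (W t (s / 2) / (2 * s) - V t (s / 2) / s ^ 2) ^ 2 ≤
            2 * (W t (s / 2) / (2 * s)) ^ 2 + 2 * (V t (s / 2) / s ^ 2) ^ 2 := by
          nlinarith [sq_nonneg (W t (s / 2) / (2 * s) + V t (s / 2) / s ^ 2)]
        have k2 : 2 * (W t (s / 2) / (2 * s)) ^ 2 = W t (s / 2) ^ 2 * (1 / s ^ 2) / 2 := by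
          field_simp
        have k3 : (V t (s / 2) / s ^ 2) ^ 2 = V t (s / 2) ^ 2 * (1 / s ^ 4) := by
          field_simp
        have k4 : 0 ≤ W t (s / 2) ^ 2 * (1 / s ^ 2) := by positivity
        rw [k2, k3] at k1
        linarith
      have l1 : V t (s / 2) ^ 2 * (1 / s ^ 2) ≤ V t (s / 2) ^ 2 * (1 / (a ^ 2) ^ 2) :=
        mul_le_mul_of_nonneg_left i1 (sq_nonneg _)
      have l2 : V t (s / 2) ^ 2 * (1 / s ^ 4) ≤ V t (s / 2) ^ 2 * (1 / (a ^ 2) ^ 4) :=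
        mul_le_mul_of_nonneg_left i2 (sq_nonneg _)
      have l3 : W t (s / 2) ^ 2 * (1 / s ^ 2) ≤ W t (s / 2) ^ 2 * (1 / (a ^ 2) ^ 2) :=
        mul_le_mul_of_nonneg_left i1 (sq_nonneg _)
      have l4 : 0 ≤ V t (s / 2) ^ 2 * (1 / (a ^ 2) ^ 2) := by positivity
      have l5 : 0 ≤ W t (s / 2) ^ 2 * (1 / (a ^ 2) ^ 2) := by positivity
      have l6 : 0 ≤ W t (s / 2) ^ 2 * (1 / (a ^ 2) ^ 4) := by positivity
      have e : C * (V t (s / 2) ^ 2 + W t (s / 2) ^ 2) =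
          2 * (V t (s / 2) ^ 2 * (1 / (a ^ 2) ^ 2)) + 2 * (V t (s / 2) ^ 2 * (1 / (a ^ 2) ^ 4)) +
          2 * (W t (s / 2) ^ 2 * (1 / (a ^ 2) ^ 2)) + 2 * (W t (s / 2) ^ 2 * (1 / (a ^ 2) ^ 4)) := by
        rw [hCd]
        ring
      rw [j1, e]
      linarith
    have hC : ENNReal.ofReal C * 2 ≠ ⊤ := ENNReal.mul_ne_top ENNReal.ofReal_ne_top (by norm_num)
    refine lt_of_le_of_lt ?_ (ENNReal.mul_lt_top (lt_top_iff_ne_top.2 hC) hF.en)
    rw [← lintegral_const_mul' _ _ hC]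
    refine lintegral_mono ?_
    intro t
    show ∫⁻ s in Icc (a ^ 2) (b ^ 2), (‖V t (s / 2) / s‖ₑ ^ 2 +
      ‖W t (s / 2) / (2 * s) - V t (s / 2) / s ^ 2‖ₑ ^ 2) ≤
      ENNReal.ofReal C * 2 * ∫⁻ x in Icc (a ^ 2 / 2) (b ^ 2 / 2), (‖V t x‖ₑ ^ 2 + ‖W t x‖ₑ ^ 2)
    rw [mul_assoc, ← hc2 (fun x => ‖V t x‖ₑ ^ 2 + ‖W t x‖ₑ ^ 2),
      ← lintegral_const_mul' _ _ ENNReal.ofReal_ne_top]
    exact setLIntegral_mono' measurableSet_Icc fun s hs => hpt t s hs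

end Pool.Agent.Q176.CC
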